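import Pool.Agent.H84.PreB

namespace Pool.Agent.Results.MP_bb0bf1_gt.Normal

open Pool.Agent.H84.Pre

universe u

theorem result (X : Type u) [TopologicalSpace X] :
    (AllWC X ↔ AllNormal X) ∧ (AllWC X ↔ AllMU X) :=
  ⟨⟨normal_of_wc, fun h => wc_of_mu (mu_of_normal h)⟩,
    ⟨fun h => mu_of_normal (normal_of_wc h), wc_of_mu⟩⟩

end Pool.Agent.Results.MP_bb0bf1_gt.Normal
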