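import Pool.Agent.H84.PreB

namespace Pool.Agent.Results.MP_bb0bf1_gt.Para

open Pool.Agent.H84.Pre

universe u

theorem result (X : Type u) [TopologicalSpace X] [T2Space X] [ParacompactSpace X]
    [FirstCountableTopology X] : AllWC X ↔
      (IsCompact (derivedSet (Set.univ : Set X)) ∨
        (LocallyCompactSpace X ∧ IsSigmaCompact (derivedSet (Set.univ : Set X)))) :=
  ⟨fun h => nec (normal_of_wc h), fun h => wc_of_mu (mu_of_normal (suff h))⟩

end Pool.Agent.Results.MP_bb0bf1_gt.Para
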