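import Pool.Agent.H84.PreB

namespace Pool.Agent.Results.MP_bb0bf1_gt.Suff

open Pool.Agent.H84.Pre

universe u

theorem result (X : Type u) [TopologicalSpace X]
    (h : IsCompact (derivedSet (Set.univ : Set X)) ∨
      (LocallyCompactSpace X ∧ IsSigmaCompact (derivedSet (Set.univ : Set X)))) : AllWC X :=
  wc_of_mu (mu_of_normal (suff h))

end Pool.Agent.Results.MP_bb0bf1_gt.Suff
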